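import Pool.Agent.MP_ea150c_mp.H20.SpecR

/-! Compactness, and removal of a unit twist. -/

namespace Pool.Agent.MP_ea150c_mp.H54

open Pool.Agent.MP_ea150c_mp.H20

theorem dvd_closed (p : ℕ) [Fact p.Prime] (n : ℕ) :
    IsClosed {z : ℤ_[p] | (p : ℤ_[p]) ^ n ∣ z} := by
  have : {z : ℤ_[p] | (p : ℤ_[p]) ^ n ∣ z} = {z : ℤ_[p] | ‖z‖ ≤ (p : ℝ) ^ (-n : ℤ)} := by
    ext z
    simp only [Set.mem_ofPred_eq]
    rw [PadicInt.norm_le_pow_iff_mem_span_pow, Ideal.mem_span_singleton]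
  rw [this]
  exact isClosed_le continuous_norm continuous_const

theorem sCpt : SCpt := by
  rintro p _ T x hx ⟨d, hd⟩
  obtain ⟨y, rfl⟩ := hx
  let F : ℕ → Set (ℤ_[p] × Matrix (Fin d) (Fin d) ℤ_[p]) := fun S =>
    {z | ∀ k, 1 ≤ k → (p : ℤ_[p]) ^ min S (k + k / (d + 1)) ∣
      (y : ℤ_[p]) ^ k * T k - (z.1 ^ k - (p : ℤ_[p]) ^ k * Matrix.trace (z.2 ^ k))}
  have hcl : ∀ S, IsClosed (F S) := by
    intro S
    have : F S = ⋂ k, ⋂ (_ : 1 ≤ k), (fun z : ℤ_[p] × Matrix (Fin d) (Fin d) ℤ_[p] =>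
        (y : ℤ_[p]) ^ k * T k - (z.1 ^ k - (p : ℤ_[p]) ^ k * Matrix.trace (z.2 ^ k))) ⁻¹'
          {z : ℤ_[p] | (p : ℤ_[p]) ^ min S (k + k / (d + 1)) ∣ z} := by
      ext z
      simp [F]
    rw [this]
    refine isClosed_iInter fun k => isClosed_iInter fun _ => (dvd_closed p _).preimage ?_
    have h2 : Continuous fun z : ℤ_[p] × Matrix (Fin d) (Fin d) ℤ_[p] => Matrix.trace (z.2 ^ k) :=
      (continuous_snd.pow k).matrix_trace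
    exact continuous_const.sub ((continuous_fst.pow k).sub (continuous_const.mul h2))
  have : CompactSpace (Matrix (Fin d) (Fin d) ℤ_[p]) :=
    inferInstanceAs (CompactSpace (Fin d → Fin d → ℤ_[p]))
  obtain ⟨⟨u, Λ⟩, hz⟩ := IsCompact.nonempty_iInter_of_sequence_nonempty_isCompact_isClosed F
    (fun S z hz k hk => (pow_dvd_pow _ (min_le_min_right _ (Nat.le_succ S))).trans (hz k hk))
    (fun S => by
      obtain ⟨u, Λ, h⟩ := hd S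
      exact ⟨(u, Λ), h⟩) (hcl 0).isCompact hcl
  refine ⟨d, ((y⁻¹ : ℤ_[p]ˣ) : ℤ_[p]) * u, ((y⁻¹ : ℤ_[p]ˣ) : ℤ_[p]) • Λ, fun k hk => ?_⟩
  have h1 := Set.mem_iInter.1 hz (k + k / (d + 1)) k hk
  rw [min_self] at h1
  have h2 := h1.mul_left (((y⁻¹ : ℤ_[p]ˣ) : ℤ_[p]) ^ k)
  have h3 : ((y⁻¹ : ℤ_[p]ˣ) : ℤ_[p]) ^ k * (y : ℤ_[p]) ^ k = 1 := by
    rw [← mul_pow, Units.inv_mul, one_pow]
  have h4 : ((y⁻¹ : ℤ_[p]ˣ) : ℤ_[p]) ^ k *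
      ((y : ℤ_[p]) ^ k * T k - (u ^ k - (p : ℤ_[p]) ^ k * Matrix.trace (Λ ^ k))) =
      T k - ((((y⁻¹ : ℤ_[p]ˣ) : ℤ_[p]) * u) ^ k -
        (p : ℤ_[p]) ^ k * ((((y⁻¹ : ℤ_[p]ˣ) : ℤ_[p]) • Λ) ^ k).trace) := by
    rw [smul_pow, Matrix.trace_smul, smul_eq_mul, mul_pow]
    linear_combination (T k) * h3
  exact h4 ▸ h2

end Pool.Agent.MP_ea150c_mp.H54
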