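import Pool.Agent.MP_ea150c_mp.H49.SpecK

/-! The identities K2 and K2q for the Dwork kernel. -/

namespace Pool.Agent.MP_ea150c_mp.H54K

open Pool.Agent.MP_ea150c_mp.H49

noncomputable section

/-- One term of `eC`. -/
def g (p N t : ℕ) : ℚ :=
  if p * t ≤ N then 1 / (((N - p * t).factorial : ℚ) * (t.factorial : ℚ) * (p : ℚ) ^ t) else 0

theorem eC_eq {p : ℕ} (hp : 0 < p) (N M : ℕ) (hM : N / p < M) :
    eC p N = ∑ t ∈ Finset.range M, g p N t := by
  unfold eC g
  rw [← Finset.sum_filter]
  refine Finset.sum_congr ?_ fun _ _ => rfl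
  ext t
  simp only [Finset.mem_range, Finset.mem_filter, Nat.lt_succ_iff, Nat.le_div_iff_mul_le hp]
  constructor
  · intro h
    refine ⟨lt_of_le_of_lt ((Nat.le_div_iff_mul_le hp).2 h) hM, by rwa [mul_comm]⟩
  · intro h
    rw [mul_comm]; exact h.2

theorem g_left (p N t : ℕ) :
    ((N : ℚ) - p * t) * g p N t = if 1 ≤ N then g p (N - 1) t else 0 := by
  unfold g
  by_cases h : p * t ≤ N
  · rw [if_pos h]
    obtain ⟨a, rfl⟩ := Nat.exists_eq_add_of_le h
    rcases a with _ | a
    · have h0 : ((p * t + 0 : ℕ) : ℚ) - p * t = 0 := by push_cast; ring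
      rw [h0, zero_mul]
      split_ifs with h1 h2
      · omega
      · rfl
      · rfl
    · have h1 : 1 ≤ p * t + (a + 1) := by omega
      have h2 : p * t ≤ p * t + (a + 1) - 1 := by omega
      have h3 : p * t + (a + 1) - p * t = a + 1 := by omega
      have h4 : p * t + (a + 1) - 1 - p * t = a := by omega
      rw [if_pos h1, if_pos h2, h3, h4, Nat.factorial_succ]
      have h5 : ((p * t + (a + 1) : ℕ) : ℚ) - p * t = ((a + 1 : ℕ) : ℚ) := by push_cast; ring
      rw [h5, Nat.cast_mul]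
      have h6 : ((a + 1 : ℕ) : ℚ) ≠ 0 := by positivity
      rw [mul_assoc, mul_assoc, mul_one_div, div_mul_eq_div_div, div_self h6, mul_assoc]
  · rw [if_neg h, mul_zero]
    split_ifs with h1 h2
    · omega
    · rfl
    · rfl

theorem g_right {p : ℕ} (hp : 0 < p) (N t : ℕ) :
    (p : ℚ) * ((t + 1 : ℕ) : ℚ) * g p N (t + 1) = if p ≤ N then g p (N - p) t else 0 := by
  unfold g
  have e : p * (t + 1) = p * t + p := by ring
  by_cases h : p * (t + 1) ≤ N
  · have h1 : p ≤ N := by omega
    have h2 : p * t ≤ N - p := by omega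
    have h3 : N - p - p * t = N - p * (t + 1) := by omega
    rw [if_pos h, if_pos h1, if_pos h2, h3, Nat.factorial_succ]
    have h6 : (p : ℚ) ≠ 0 := by positivity
    have h7 : (((N - p * (t + 1)).factorial : ℕ) : ℚ) ≠ 0 := by positivity
    have h8 : ((t.factorial : ℕ) : ℚ) ≠ 0 := by positivity
    push_cast
    field_simp
    ring
  · rw [if_neg h, mul_zero]
    split_ifs with h1 h2
    · omega
    · rfl
    · rfl

theorem eC_rec {p : ℕ} (hp : 0 < p) (N : ℕ) :
    (N : ℚ) * eC p N =
      (if 1 ≤ N then eC p (N - 1) else 0) + (if p ≤ N then eC p (N - p) else 0) := by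
  have hd : ∀ a : ℕ, a / p ≤ a := fun a => Nat.div_le_self a p
  rw [eC_eq hp N (N + 2) (by have := hd N; omega),
    eC_eq hp (N - 1) (N + 2) (by have := hd (N - 1); omega),
    eC_eq hp (N - p) (N + 1) (by have := hd (N - p); omega), Finset.mul_sum]
  have h1 : ∀ t : ℕ, (N : ℚ) * g p N t =
      ((N : ℚ) - p * t) * g p N t + (p : ℚ) * (t : ℚ) * g p N t := fun t => by ring
  simp only [h1, Finset.sum_add_distrib]
  congr 1
  · simp only [g_left]
    split_ifs <;> simp
  · rw [Finset.sum_range_succ']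
    simp only [g_right hp]
    split_ifs <;> simp

/-- The rational coefficient with first index lowered by one. -/
def kqm (p m' m j : ℕ) : ℚ := if m' = 0 then 0 else kq p (m' - 1) m j

theorem kqm_eq {p : ℕ} (m' m j : ℕ) : (p : ℚ) * kqm p m' m j =
    if p * j + (m + 1) + p ≤ p * (m' + 1) then
      (-1) ^ (m' + j) * (p : ℚ) ^ m' * eC p (p * (m' + 1) - (m + 1) - p * j - p) /
        (j.factorial : ℚ)
    else 0 := by
  unfold kqm
  rcases m' with _ | a
  · rw [if_pos rfl, mul_zero, if_neg]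
    omega
  · rw [if_neg (by omega), Nat.add_sub_cancel]
    unfold kq
    have e : p * (a + 1 + 1) = p * (a + 1) + p := by ring
    by_cases h : p * j + (m + 1) ≤ p * (a + 1)
    · have h3 : p * (a + 1 + 1) - (m + 1) - p * j - p = p * (a + 1) - (m + 1) - p * j := by omega
      rw [if_pos h, if_pos (by omega), h3]
      ring
    · rw [if_neg h, if_neg (by omega), mul_zero]

theorem idA_q {p : ℕ} (hp : 0 < p) (m' m j : ℕ) :
    ((p * (m' + 1) - (m + 1) - p * j : ℕ) : ℚ) * kq p m' m j =
      kq p m' (m + 1) j - p * kqm p m' m j := by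
  rw [kqm_eq]
  unfold kq
  by_cases h : p * j + (m + 1) ≤ p * (m' + 1)
  · rw [if_pos h]
    set N := p * (m' + 1) - (m + 1) - p * j with hN
    have hr := eC_rec hp N
    have e1 : p * (m' + 1) - (m + 1 + 1) - p * j = N - 1 := by omega
    have c1 : (p * j + (m + 1 + 1) ≤ p * (m' + 1)) ↔ 1 ≤ N := by omega
    have c2 : (p * j + (m + 1) + p ≤ p * (m' + 1)) ↔ p ≤ N := by omega
    rw [e1]
    simp only [c1, c2]
    have : (N : ℚ) * ((-1) ^ (m' + 1 + j) * (p : ℚ) ^ m' * eC p N / (j.factorial : ℚ)) =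
        (-1) ^ (m' + 1 + j) * (p : ℚ) ^ m' * ((N : ℚ) * eC p N) / (j.factorial : ℚ) := by ring
    rw [this, hr]
    split_ifs <;> ring
  · rw [if_neg h, if_neg (by omega), if_neg (by omega)]
    ring

theorem idB_q {p : ℕ} (m' m j : ℕ) :
    ((j + 1 : ℕ) : ℚ) * kq p m' m (j + 1) = p * kqm p m' m j := by
  rw [kqm_eq]
  unfold kq
  have e : p * (j + 1) = p * j + p := by ring
  by_cases h : p * (j + 1) + (m + 1) ≤ p * (m' + 1)
  · have e1 : p * (m' + 1) - (m + 1) - p * (j + 1) = p * (m' + 1) - (m + 1) - p * j - p := by omega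
    rw [if_pos h, if_pos (by omega), e1, Nat.factorial_succ]
    have h8 : ((j.factorial : ℕ) : ℚ) ≠ 0 := by positivity
    push_cast
    field_simp
    ring
  · rw [if_neg h, if_neg (by omega), mul_zero]

section Int
variable {p : ℕ} [Fact p.Prime]

/-- The integral coefficient with first index lowered by one. -/
def kcm (p : ℕ) [Fact p.Prime] (m' m j : ℕ) : ℤ_[p] := if m' = 0 then 0 else kc p (m' - 1) m j

theorem kc_zero {m' m j : ℕ} (h : ¬ p * j + (m + 1) ≤ p * (m' + 1)) : kc p m' m j = 0 := by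
  have h0 : kq p m' m j = 0 := by unfold kq; rw [if_neg h]
  unfold kc
  split_ifs with h1
  · apply Subtype.ext
    simp [h0]
  · rfl

theorem kcm_zero {m' m j : ℕ} (h : ¬ p * j + (m + 1) + p ≤ p * (m' + 1)) : kcm p m' m j = 0 := by
  unfold kcm
  rcases m' with _ | a
  · rfl
  · rw [if_neg (by omega), Nat.add_sub_cancel]
    have e : p * (a + 1 + 1) = p * (a + 1) + p := by ring
    exact kc_zero (by omega)

variable (h1 : ∀ m' m j : ℕ, ((kc p m' m j : ℤ_[p]) : ℚ_[p]) = ((kq p m' m j : ℚ) : ℚ_[p]))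
include h1

theorem kcm_coe (m' m j : ℕ) : ((kcm p m' m j : ℤ_[p]) : ℚ_[p]) = ((kqm p m' m j : ℚ) : ℚ_[p]) := by
  unfold kcm kqm
  split_ifs
  · simp
  · exact h1 _ _ _

theorem idA (m' m j : ℕ) :
    ((p * (m' + 1) - (m + 1) - p * j : ℕ) : ℤ_[p]) * kc p m' m j =
      kc p m' (m + 1) j - p * kcm p m' m j := by
  apply Subtype.ext
  have := congrArg (fun x : ℚ => (x : ℚ_[p])) (idA_q (Fact.out : p.Prime).pos m' m j)
  simp only [Rat.cast_mul, Rat.cast_sub, Rat.cast_natCast] at this
  change (((_ * _ : ℤ_[p])) : ℚ_[p]) = (((_ - _ : ℤ_[p])) : ℚ_[p])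
  rw [PadicInt.coe_mul, PadicInt.coe_sub, PadicInt.coe_mul, PadicInt.coe_natCast,
    PadicInt.coe_natCast, h1, h1, kcm_coe h1]
  exact this

theorem idB (m' m j : ℕ) :
    ((j + 1 : ℕ) : ℤ_[p]) * kc p m' m (j + 1) = p * kcm p m' m j := by
  apply Subtype.ext
  have := congrArg (fun x : ℚ => (x : ℚ_[p])) (idB_q (p := p) m' m j)
  simp only [Rat.cast_mul, Rat.cast_natCast] at this
  change (((_ * _ : ℤ_[p])) : ℚ_[p]) = (((_ * _ : ℤ_[p])) : ℚ_[p])
  rw [PadicInt.coe_mul, PadicInt.coe_mul, PadicInt.coe_natCast,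
    PadicInt.coe_natCast, h1, kcm_coe h1]
  exact this

end Int

section Alg
variable {p : ℕ} [Fact p.Prime] {A : Type} [CommRing A] [Algebra ℤ_[p] A]

theorem kapm_eq (m' m : ℕ) (f G : A) : kapm p m' m f G =
    ∑ j ∈ Finset.range m', kcm p m' m j • (f ^ (p * (m' + 1) - (m + 1) - p * j - p) * G ^ j) := by
  unfold kapm kcm
  rcases m' with _ | a
  · simp
  · simp only [if_neg (Nat.succ_ne_zero a), Nat.add_sub_cancel]
    unfold kap
    refine Finset.sum_congr rfl fun j _ => ?_
    have e : p * (a + 1 + 1) = p * (a + 1) + p := by ring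
    have h3 : p * (a + 1 + 1) - (m + 1) - p * j - p = p * (a + 1) - (m + 1) - p * j := by omega
    rw [h3]

theorem kapm_eq' (m' m : ℕ) (f G : A) : kapm p m' m f G =
    ∑ j ∈ Finset.range (m' + 1),
      kcm p m' m j • (f ^ (p * (m' + 1) - (m + 1) - p * j - p) * G ^ j) := by
  have e : p * (m' + 1) = p * m' + p := by ring
  rw [Finset.sum_range_succ, kcm_zero (by omega), zero_smul, add_zero, kapm_eq]

variable (h1 : ∀ m' m j : ℕ, ((kc p m' m j : ℤ_[p]) : ℚ_[p]) = ((kq p m' m j : ℚ) : ℚ_[p]))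
include h1

/-- The derivative in `f`. -/
theorem sumA (m' m : ℕ) (f G : A) :
    ∑ j ∈ Finset.range (m' + 1), kc p m' m j •
      (((p * (m' + 1) - (m + 1) - p * j : ℕ) : A) * f ^ (p * (m' + 1) - (m + 1) - p * j - 1) *
        G ^ j) = kap p m' (m + 1) f G - p * f ^ (p - 1) * kapm p m' m f G := by
  rw [kapm_eq', Finset.mul_sum]
  unfold kap
  rw [← Finset.sum_sub_distrib]
  refine Finset.sum_congr rfl fun j _ => ?_
  have hp := (Fact.out : p.Prime).pos
  have hA := idA h1 m' m j
  set N := p * (m' + 1) - (m + 1) - p * j with hN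
  have e1 : p * (m' + 1) - (m + 1 + 1) - p * j = N - 1 := by omega
  rw [e1]
  have e2 : kc p m' m j • ((N : A) * f ^ (N - 1) * G ^ j) =
      ((N : ℤ_[p]) * kc p m' m j) • (f ^ (N - 1) * G ^ j) := by
    simp only [Algebra.smul_def, map_mul, map_natCast]; ring
  rw [e2, hA, sub_smul]
  congr 1
  by_cases h : p * j + (m + 1) + p ≤ p * (m' + 1)
  · have e3 : N - 1 = (p - 1) + (N - p) := by omega
    rw [e3, pow_add]
    simp only [Algebra.smul_def, map_mul, map_natCast]; ring
  · rw [kcm_zero h]; simp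

/-- The derivative in `G`. -/
theorem sumB (m' m : ℕ) (f G : A) :
    ∑ j ∈ Finset.range (m' + 1), kc p m' m j •
      (f ^ (p * (m' + 1) - (m + 1) - p * j) * ((j : A) * G ^ (j - 1))) = p * kapm p m' m f G := by
  rw [kapm_eq, Finset.mul_sum, Finset.sum_range_succ']
  simp only [Nat.cast_zero, zero_mul, mul_zero, smul_zero, add_zero, Nat.add_sub_cancel]
  refine Finset.sum_congr rfl fun j _ => ?_
  have hB := idB h1 m' m j
  have e : p * (j + 1) = p * j + p := by ring
  have e1 : p * (m' + 1) - (m + 1) - p * (j + 1) = p * (m' + 1) - (m + 1) - p * j - p := by omega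
  rw [e1]
  set F := f ^ (p * (m' + 1) - (m + 1) - p * j - p)
  have e2 : kc p m' m (j + 1) • (F * (((j + 1 : ℕ) : A) * G ^ j)) =
      (((j + 1 : ℕ) : ℤ_[p]) * kc p m' m (j + 1)) • (F * G ^ j) := by
    simp only [Algebra.smul_def, map_mul, map_natCast]; ring
  rw [e2, hB]
  simp only [Algebra.smul_def, map_mul, map_natCast]; ring

end Alg

theorem d_pow {O A : Type} [CommRing O] [CommRing A] [Algebra O A] (d : A →ₗ[O] A)
    (hd : ∀ a b, d (a * b) = d a * b + a * d b) (f : A) (n : ℕ) :
    d (f ^ n) = (n : A) * f ^ (n - 1) * d f := by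
  have h0 : d 1 = 0 := by
    have := hd 1 1
    simp only [mul_one, one_mul] at this
    exact left_eq_add.1 this
  induction n with
  | zero => simp [h0]
  | succ n ih =>
    rw [pow_succ, hd, ih, Nat.add_sub_cancel]
    rcases n with _ | n
    · simp
    · rw [Nat.add_sub_cancel]; push_cast; ring

theorem nat_pow_mul {A : Type} [CommRing A] (f : A) (n : ℕ) :
    f * ((n : A) * f ^ (n - 1)) = n * f ^ n := by
  rcases n with _ | n
  · simp
  · rw [Nat.add_sub_cancel]; ring

theorem k2 (h : K1) : K2 := by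
  intro p _ hp A _ _ f G m' m
  have h1 := fun a b c => (h p hp a b c).1
  have hA := sumA h1 m' m f G
  have hB := sumB h1 m' m f G
  refine ⟨fun d hd => ?_, ?_, fun hm => ?_⟩
  · have hG : d ((p : A) * G) = p * d G := by
      rw [← nsmul_eq_mul, map_nsmul, nsmul_eq_mul]
    rw [map_sub, hG, d_pow d hd]
    have : d (kap p m' m f G) =
        (kap p m' (m + 1) f G - p * f ^ (p - 1) * kapm p m' m f G) * d f +
          (p * kapm p m' m f G) * d G := by
      rw [← hA, ← hB, Finset.sum_mul, Finset.sum_mul, ← Finset.sum_add_distrib]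
      unfold kap
      rw [map_sum]
      refine Finset.sum_congr rfl fun j _ => ?_
      rw [map_smul, hd, d_pow d hd, d_pow d hd]
      simp only [Algebra.smul_def]; ring
    rw [this]; ring
  · have hfp : f * f ^ (p - 1) = f ^ p := by
      rw [← pow_succ']; congr 1; omega
    have key : (p : A) * ((m' + 1 : ℕ) : A) * kap p m' m f G =
        ((m + 1 : ℕ) : A) * kap p m' m f G +
          f * (kap p m' (m + 1) f G - p * f ^ (p - 1) * kapm p m' m f G) +
          p * G * (p * kapm p m' m f G) := by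
      rw [← hA, ← hB]
      unfold kap
      simp only [Finset.mul_sum, ← Finset.sum_add_distrib]
      refine Finset.sum_congr rfl fun j _ => ?_
      by_cases hc : p * j + (m + 1) ≤ p * (m' + 1)
      · set N := p * (m' + 1) - (m + 1) - p * j with hN
        have e : p * (m' + 1) = (m + 1) + N + p * j := by omega
        have e' : (p : A) * ((m' + 1 : ℕ) : A) = ((m + 1 : ℕ) : A) + N + p * j := by
          exact_mod_cast congrArg (Nat.cast : ℕ → A) e
        have a1 := nat_pow_mul f N
        have a2 := nat_pow_mul G j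
        rw [e']
        simp only [Algebra.smul_def]
        linear_combination (-(algebraMap ℤ_[p] A (kc p m' m j)) * G ^ j) * a1 +
          (-(algebraMap ℤ_[p] A (kc p m' m j)) * p * f ^ N) * a2
      · rw [kc_zero hc]; simp
    linear_combination (-1 : A) * key + (p * kapm p m' m f G) * hfp
  · unfold kap
    exact Finset.sum_eq_zero fun j _ => by rw [kc_zero (by omega), zero_smul]

theorem smul_eq_q {p : ℕ} [Fact p.Prime] {A : Type} [CommRing A] [Algebra ℤ_[p] A] [Algebra ℚ A]
    (c : ℤ_[p]) (r : ℚ) (h : (c : ℚ_[p]) = (r : ℚ_[p])) (x : A) : c • x = r • x := by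
  have h1 : (r.den : ℤ_[p]) * c = (r.num : ℤ_[p]) := by
    apply Subtype.ext
    rw [PadicInt.coe_mul, PadicInt.coe_natCast, PadicInt.coe_intCast, h]
    have := congrArg (fun x : ℚ => (x : ℚ_[p])) (Rat.den_mul_eq_num r)
    simpa only [Rat.cast_mul, Rat.cast_natCast, Rat.cast_intCast] using this
  have h2 : (r.den : A) * algebraMap ℤ_[p] A c = (r.num : A) := by
    have := congrArg (algebraMap ℤ_[p] A) h1
    simpa using this
  have h3 : (r.den : A) * algebraMap ℚ A r = (r.num : A) := by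
    have := congrArg (algebraMap ℚ A) (Rat.den_mul_eq_num r)
    simpa only [map_mul, map_natCast, map_intCast] using this
  have h4 : IsUnit (r.den : A) := by
    have : IsUnit (r.den : ℚ) := IsUnit.mk0 _ (by exact_mod_cast r.den_nz)
    simpa using this.map (algebraMap ℚ A)
  rw [Algebra.smul_def, Algebra.smul_def, h4.mul_left_cancel (h2.trans h3.symm)]

theorem k2q (h : K1) : K2q := by
  intro p _ hp A _ _ _ f G m' m
  have h1 := fun a b c => (h p hp a b c).1
  have hp0 : 0 < p := by omega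
  have hpq : (p : ℚ) ≠ 0 := by positivity
  set n := p * (m' + 1) - (m + 1) with hn
  let T : ℕ → ℕ → A := fun i t =>
    ((if p * i + (m + 1) ≤ p * (m' + 1) then
      (-1) ^ (m' + 1 + i) * (p : ℚ) ^ m' * g p (n - p * i) t / (i.factorial : ℚ) else 0) : ℚ) •
        (f ^ (n - p * i) * G ^ i)
  have hL : kap p m' m f G = ∑ i ∈ Finset.range (m' + 1), ∑ t ∈ Finset.range (m' + 1 - i), T i t := by
    unfold kap
    refine Finset.sum_congr rfl fun i _ => ?_
    rw [smul_eq_q _ _ (h1 m' m i), ← Finset.sum_smul]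
    congr 1
    unfold kq
    by_cases hc : p * i + (m + 1) ≤ p * (m' + 1)
    · simp only [if_pos hc]
      rw [← hn, eC_eq hp0 (n - p * i) (m' + 1 - i), Finset.mul_sum, Finset.sum_div]
      rw [Nat.div_lt_iff_lt_mul hp0, Nat.sub_mul, mul_comm (m' + 1), mul_comm i]
      omega
    · simp only [if_neg hc, Finset.sum_const_zero]
  rw [hL, ← Finset.sum_range_diag_flip]
  refine Finset.sum_congr rfl fun j hj => ?_
  have hjm : j ≤ m' := Nat.lt_succ_iff.1 (Finset.mem_range.1 hj)
  by_cases hc : p * j + (m + 1) ≤ p * (m' + 1)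
  · rw [if_pos hc, sub_eq_neg_add, add_pow, Finset.mul_sum, Finset.smul_sum]
    refine Finset.sum_congr rfl fun i hi => ?_
    have hij : i ≤ j := Nat.lt_succ_iff.1 (Finset.mem_range.1 hi)
    obtain ⟨t, rfl⟩ := Nat.exists_eq_add_of_le hij
    obtain ⟨u, rfl⟩ := Nat.exists_eq_add_of_le hjm
    have e : p * (i + t) = p * i + p * t := by ring
    have c1 : p * i + (m + 1) ≤ p * (i + t + u + 1) := by omega
    have c2 : p * t ≤ n - p * i := by omega
    have e1 : n - p * i - p * t = n - p * (i + t) := by omega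
    have e2 : n - p * i = n - p * (i + t) + p * t := by omega
    simp only [T, Nat.add_sub_cancel_left, if_pos c1, g, if_pos c2, e1]
    set N := n - p * (i + t)
    rw [e2]
    have e3 : f ^ N * ((-((p : A) * G)) ^ i * (f ^ p) ^ t * (((i + t).choose i : ℕ) : A)) =
        (((-1) ^ i * (p : ℚ) ^ i * (((i + t).choose i : ℕ) : ℚ)) : ℚ) • (f ^ (N + p * t) * G ^ i) := by
      simp only [Algebra.smul_def, map_mul, map_pow, map_natCast, map_neg, map_one]
      rw [neg_pow, mul_pow, ← pow_mul]; ring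
    rw [e3, smul_smul]
    congr 1
    have e4 : (((i + t).factorial : ℕ) : ℚ) =
        (((i + t).choose i : ℕ) : ℚ) * (i.factorial : ℚ) * (t.factorial : ℚ) := by
      have := Nat.choose_mul_factorial_mul_factorial (Nat.le_add_right i t)
      rw [Nat.add_sub_cancel_left] at this
      exact_mod_cast this.symm
    have h7 : ((N.factorial : ℕ) : ℚ) ≠ 0 := by positivity
    have h8 : ((t.factorial : ℕ) : ℚ) ≠ 0 := by positivity
    have h9 : ((i.factorial : ℕ) : ℚ) ≠ 0 := by positivity
    have h10 : (((i + t).choose i : ℕ) : ℚ) ≠ 0 := by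
      exact_mod_cast (Nat.choose_pos (Nat.le_add_right i t)).ne'
    rw [e4]
    field_simp
    ring
  · rw [if_neg hc]
    refine Finset.sum_eq_zero fun i hi => ?_
    have hij : i ≤ j := Nat.lt_succ_iff.1 (Finset.mem_range.1 hi)
    obtain ⟨t, rfl⟩ := Nat.exists_eq_add_of_le hij
    have e : p * (i + t) = p * i + p * t := by ring
    simp only [T, Nat.add_sub_cancel_left]
    by_cases c1 : p * i + (m + 1) ≤ p * (m' + 1)
    · have c2 : ¬ p * t ≤ n - p * i := by omega
      simp [g, c2]
    · simp [c1]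

end

end Pool.Agent.MP_ea150c_mp.H54K
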