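import Pool.Agent.MP_ea150c_mp.H49.SpecV

/-! The slope of the stress vanishes (statement VC). -/

namespace Pool.Agent.MP_ea150c_mp.H54V

open Pool.Agent.MP_ea150c_mp.H49

noncomputable section

theorem const_mem {K M : Type} [Field K] [Infinite K] [AddCommGroup M] [Module K M]
    (B : Submodule K M) (N : ℕ) (v : ℕ → M) (a c : M)
    (h : ∀ x : K, x ≠ 0 → x • (∑ e ∈ Finset.range N, x ^ e • v e + a) + c ∈ B) : c ∈ B := by
  by_contra hc
  obtain ⟨φ, hφ, hB⟩ := Submodule.exists_le_ker_of_notMem hc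
  let q : Polynomial K := Polynomial.X *
    (∑ e ∈ Finset.range N, Polynomial.X ^ e * Polynomial.C (φ (v e)) + Polynomial.C (φ a)) +
      Polynomial.C (φ c)
  have hq : q = 0 := by
    apply Polynomial.eq_zero_of_infinite_isRoot
    refine Set.Infinite.mono (s := ({0} : Set K)ᶜ) (fun x hx => ?_) (Set.finite_singleton 0).infinite_compl
    have h1 : φ _ = 0 := hB (h x hx)
    simp only [map_add, map_smul, map_sum, smul_eq_mul] at h1
    simpa only [q, Set.mem_ofPred_eq, Polynomial.IsRoot, Polynomial.eval_finsetSum,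
      Polynomial.eval_add, Polynomial.eval_mul, Polynomial.eval_pow, Polynomial.eval_X,
      Polynomial.eval_C] using h1
  have := congrArg (Polynomial.eval 0) hq
  exact hφ (by simpa [q] using this)

section Orb
variable {K : Type} [Field K]

theorem alg_C (c : K) : algebraMap K (LR K) c = algebraMap (SR K) (LR K) (MvPolynomial.C c) := by
  rw [IsScalarTower.algebraMap_apply K (SR K) (LR K), MvPolynomial.algebraMap_eq]

theorem const_loc {Λ : Type} (g : Λ → SR K) (J : Finset Λ) (c : K) :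
    algebraMap K (LR K) c ∈ Loc (LR K) g J :=
  ⟨0, MvPolynomial.C c, by rw [pow_zero, one_mul, alg_C]⟩

theorem gS_smul (c : K) (Y : Fin 4 → K) : gS (c • Y) = MvPolynomial.C c * gS Y := by
  simp only [gS, Pi.smul_apply, smul_eq_mul, map_mul]; ring

theorem gS_sub (Y Y' : Fin 4 → K) : gS (Y - Y') = gS Y - gS Y' := by
  simp only [gS, Pi.sub_apply, map_sub]; ring

theorem fr_smul (c : K) (Y : Fin 4 → K) (r : Fin 4) :
    fr (c • Y) r = algebraMap K (LR K) c * fr Y r := by
  fin_cases r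
  · simp [fr, gS_smul, alg_C]
  · simp [fr]; ring
  · simp [fr]; ring
  · simp [fr]; ring

theorem fr_div (c : K) (hc : c ≠ 0) (Y : Fin 4 → K) (r : Fin 4) :
    fr (c • Y) r / fr (c • Y) 0 = fr Y r / fr Y 0 := by
  rw [fr_smul, fr_smul, mul_div_mul_left]
  exact (map_ne_zero (algebraMap K (LR K))).2 hc

theorem ccL_smul {Λ : Type} [LinearOrder Λ] (c : Λ → K) (hc : ∀ i, c i ≠ 0) (Y : Λ → Fin 4 → K)
    (J : Finset Λ) : ccL (fun i => c i • Y i) J = ccL Y J := by
  unfold ccL
  split_ifs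
  · simp only [fr_div _ (hc _)]
  · rfl

theorem ccL_map {Λ Λ' : Type} [LinearOrder Λ] [LinearOrder Λ'] (e : Λ' ↪o Λ) (Y : Λ → Fin 4 → K)
    (J : Finset Λ') : ccL Y (J.map e.toEmbedding) = ccL (fun i => Y (e i)) J := by
  unfold ccL
  by_cases h : J.card = 3
  · have h' : (J.map e.toEmbedding).card = 3 := by rw [Finset.card_map, h]
    have key : (fun i => e (J.orderEmbOfFin h i)) = (J.map e.toEmbedding).orderEmbOfFin h' :=
      Finset.orderEmbOfFin_unique h'
        (fun i => Finset.mem_map_of_mem _ (Finset.orderEmbOfFin_mem J h i))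
        (e.strictMono.comp (J.orderEmbOfFin h).strictMono)
    rw [dif_pos h, dif_pos h', ← key]
  · rw [dif_neg h, dif_neg (by rwa [Finset.card_map])]

theorem prod_gS {Λ : Type} (c : Λ → K) (Y : Λ → Fin 4 → K) (J : Finset Λ) :
    algebraMap (SR K) (LR K) (∏ i ∈ J, gS (c i • Y i)) =
      algebraMap K (LR K) (∏ i ∈ J, c i) * algebraMap (SR K) (LR K) (∏ i ∈ J, gS (Y i)) := by
  simp only [gS_smul, Finset.prod_mul_distrib, map_mul, alg_C, map_prod]

theorem loc_smul {Λ : Type} (c : Λ → K) (hc : ∀ i, c i ≠ 0) (Y : Λ → Fin 4 → K) (J : Finset Λ)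
    {z : LR K} (hz : z ∈ Loc (LR K) (fun i => gS (c i • Y i)) J) :
    z ∈ Loc (LR K) (fun i => gS (Y i)) J := by
  obtain ⟨N, a, h⟩ := hz
  have h0 : ∏ i ∈ J, c i ≠ 0 := Finset.prod_ne_zero_iff.2 fun i _ => hc i
  refine ⟨N, MvPolynomial.C ((∏ i ∈ J, c i)⁻¹ ^ N) * a, ?_⟩
  rw [map_mul, ← alg_C, ← h, prod_gS, mul_pow, ← map_pow (algebraMap K (LR K)), ← mul_assoc,
    ← mul_assoc, ← map_mul, ← mul_pow, inv_mul_cancel₀ h0, one_pow, map_one, one_mul]

/-- The coboundaries as a subspace. -/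
def Cob {Λ : Type} [LinearOrder Λ] [Fintype Λ] (g : Λ → SR K) :
    Submodule K (Finset Λ → LR K) where
  carrier := {x | CobOn (LR K) g Finset.univ x}
  zero_mem' := ⟨0, fun J => Subring.zero_mem _, fun J _ => by simp⟩
  add_mem' := fun ⟨z, hz, h⟩ ⟨z', hz', h'⟩ =>
    ⟨z + z', fun J => Subring.add_mem _ (hz J) (hz' J), fun J hJ => by
      rw [map_add, Pi.add_apply, Pi.add_apply, h J hJ, h' J hJ]⟩
  smul_mem' := fun c _ ⟨z, hz, h⟩ =>
    ⟨algebraMap K (LR K) c • z, fun J => Subring.mul_mem _ (const_loc g J c) (hz J), fun J hJ => by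
      rw [map_smul, Pi.smul_apply, Pi.smul_apply, h J hJ, smul_eq_mul, Algebra.smul_def]⟩

end Orb

section Pts
variable {I E : Type} [LinearOrder I] [Fintype I] [Fintype E] [DecidableEq E] {K : Type} [Field K]

/-- The charts of the second kind as an order embedding. -/
def e2o (I : Type) [LinearOrder I] : I ↪o I ⊕ₗ I := ⟨e2 I, Sum.Lex.inr_le_inr_iff⟩

/-- The matrices of the second gauge. -/
def X2 (P : Pt I K) (j : I) : Fin 4 → K := if j = P.w then ![0, 0, 0, 1] else P.al P.w • P.X j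

/-- The scalars of the second gauge. -/
def c2 (P : Pt I K) (lam : K) (j : I) : K := if j = P.w then -(P.al P.w * lam) else 1

variable {G : PG I E} {P : Pt I K}

theorem XK_e2 (hP : P.Good G) (lam : K) (j : I) : P.XK lam (e2o I j) = c2 P lam j • X2 P j := by
  change (if j = P.w then P.X1 lam j else P.al P.w • P.X j) = _
  unfold c2 X2
  split_ifs with h
  · subst h
    rw [Pt.X1, hP.Xw, zero_sub, neg_smul]
  · rw [one_smul]

theorem c2_ne (hP : P.Good G) {lam : K} (hl : lam ≠ 0) (j : I) : c2 P lam j ≠ 0 := by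
  unfold c2
  split_ifs
  · exact neg_ne_zero.2 (mul_ne_zero hP.alw hl)
  · exact one_ne_zero

theorem X2_ne (hP : P.Good G) (j : I) : X2 P j ≠ 0 := by
  unfold X2
  split_ifs with h
  · intro h0
    simpa using congrFun h0 3
  · obtain ⟨r, -, hr⟩ := hP.gen j h
    intro h0
    exact mul_ne_zero hP.alw hr (congrFun h0 r)

theorem X1_ne (hP : P.Good G) {lam : K} (hl : lam ≠ 0) (j : I) : P.X1 lam j ≠ 0 := by
  by_cases h : j = P.w
  · subst h
    intro h0
    have := congrFun h0 3
    simp only [Pt.X1, hP.Xw, zero_sub, Pi.neg_apply, Pi.smul_apply, smul_eq_mul, Pi.zero_apply,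
      neg_eq_zero] at this
    exact mul_ne_zero hP.alw hl (by simpa using this)
  · obtain ⟨r, hr3, hr⟩ := hP.gen j h
    intro h0
    have := congrFun h0 r
    apply hr
    fin_cases r
    · simpa [Pt.X1] using this
    · simpa [Pt.X1] using this
    · simpa [Pt.X1] using this
    · exact (hr3 rfl).elim

theorem XK_ne (hP : P.Good G) {lam : K} (hl : lam ≠ 0) (κ : I ⊕ₗ I) : P.XK lam κ ≠ 0 := by
  rcases κ with j | j
  · exact X1_ne hP hl j
  · have := XK_e2 hP lam j
    change P.XK lam (e2o I j) ≠ 0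
    rw [this]
    exact smul_ne_zero (c2_ne hP hl j) (X2_ne hP j)

theorem XK_span (hP : P.Good G) (lam : K) (κ : I ⊕ₗ I) :
    gS (P.XK lam κ) ∈ Ideal.span ((fun κ => gS (P.XK lam κ)) ''
      ((Finset.univ.map (e1 I) : Finset (I ⊕ₗ I)) : Set (I ⊕ₗ I))) := by
  have h1 : ∀ j, gS (P.X1 lam j) ∈ Ideal.span ((fun κ => gS (P.XK lam κ)) ''
      ((Finset.univ.map (e1 I) : Finset (I ⊕ₗ I)) : Set (I ⊕ₗ I))) := fun j =>
    Ideal.subset_span ⟨e1 I j, Finset.mem_coe.2 (Finset.mem_map_of_mem _ (Finset.mem_univ j)), rfl⟩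
  rcases κ with j | j
  · exact h1 j
  · change gS (if j = P.w then P.X1 lam j else P.al P.w • P.X j) ∈ _
    split_ifs with h
    · exact h1 j
    · have : P.al P.w • P.X j = P.al P.w • P.X1 lam j - P.al j • P.X1 lam P.w := by
        simp only [Pt.X1, hP.Xw, zero_sub, smul_sub, smul_neg, smul_smul, sub_neg_eq_add]
        rw [show P.al P.w * (P.al j * lam) = P.al j * (P.al P.w * lam) by ring, sub_add_cancel]
      rw [this, gS_sub, gS_smul, gS_smul]
      exact Ideal.sub_mem _ (Ideal.mul_mem_left _ _ (h1 _)) (Ideal.mul_mem_left _ _ (h1 _))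

theorem span_le (hP : P.Good G) :
    Submodule.span K (insert ![0, 0, 0, 1] (Set.range P.X)) ≤
      Submodule.span K (Set.range (X2 P)) := by
  rw [Submodule.span_le]
  rintro x (rfl | ⟨j, rfl⟩)
  · exact Submodule.subset_span ⟨P.w, by simp [X2]⟩
  · by_cases h : j = P.w
    · subst h; rw [hP.Xw]; exact Submodule.zero_mem _
    · have : P.X j = (P.al P.w)⁻¹ • X2 P j := by
        rw [X2, if_neg h, smul_smul, inv_mul_cancel₀ hP.alw, one_smul]
      rw [this]
      exact Submodule.smul_mem _ _ (Submodule.subset_span ⟨j, rfl⟩)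

theorem gam_eq (hP : P.Good G) (s : I → I → K) (lam : K) :
    P.gam s lam = P.gam s 0 + lam * P.slope s := by
  have h1 : ∑ v, P.ρ v * s v v * P.al v * P.X v 0 =
      -∑ u, ∑ v, P.t u v * P.al u * P.X v 0 * s v v := by
    rw [Finset.sum_comm, ← Finset.sum_neg_distrib]
    refine Finset.sum_congr rfl fun v _ => ?_
    have := hP.eqa v
    rw [← Finset.sum_mul, ← Finset.sum_mul]
    linear_combination (s v v * P.X v 0) * this
  have h2 : P.gam s lam = P.gam s 0 + lam * (∑ v, P.ρ v * s v v * P.al v * P.X v 0 +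
      ∑ u, ∑ v, P.t u v * P.al u * P.X v 0 * s u v) := by
    simp only [Pt.gam, mul_add, Finset.sum_add_distrib, Finset.mul_sum, zero_mul, mul_zero,
      Finset.sum_const_zero, add_zero]
    have e1 : ∑ v, P.ρ v * s v v * P.al v * (lam * P.X v 0) =
        ∑ v, lam * (P.ρ v * s v v * P.al v * P.X v 0) :=
      Finset.sum_congr rfl fun v _ => by ring
    have e2 : ∑ u, ∑ v, P.t u v * s u v * P.al u * (lam * P.X v 0) =
        ∑ u, ∑ v, lam * (P.t u v * P.al u * P.X v 0 * s u v) :=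
      Finset.sum_congr rfl fun u _ => Finset.sum_congr rfl fun v _ => by ring
    rw [e1, e2]; ring
  rw [h2, h1]
  simp only [Pt.slope, mul_sub, Finset.sum_sub_distrib]
  ring

theorem prod_c2 (P : Pt I K) (lam : K) (J : Finset I) :
    ∏ j ∈ J, c2 P lam j = (-(P.al P.w * lam)) ^ (if P.w ∈ J then 1 else 0) := by
  unfold c2
  rw [Finset.prod_ite_eq']
  split_ifs <;> simp

end Pts

theorem vc (vw : VW) (vd : VD) (vt : VT) (vnt : VNT) (ve : VE) (vu : VU) : VC := by
  intro I E _ _ _ _ G hG h p _ hp K _ _ P hP hK x₀ m s s' hrel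
  set σ : I → I → K := fun u v => zk p K (s' u v) with hσ
  have hu := fun J : Finset I =>
    (vu I (Ex0 I) (Io G Finset.univ) G.M0 h p hp).1 P.w
      (NhA p P.w (J.map (e2 I)) • G.xc h p x₀ m s)
  choose u hu using hu
  have hd := fun J : Finset I => vd I E G hG h p hp K P hP J x₀ m s (u J) (hu J)
  choose N V hV using hd
  let g2 : I → SR K := fun i => gS (X2 P i)
  have hg2 : ∀ J : Finset I, algebraMap (SR K) (LR K) (∏ i ∈ J, g2 i) ≠ 0 := fun J => by
    rw [map_prod]
    exact Finset.prod_ne_zero_iff.2 fun i _ => (vnt K I).1 _ (X2_ne hP i)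
  let M : ℕ := Finset.univ.sup N
  let V' : ℕ → Finset I → LR K := fun e J =>
    if e < N J then V J e / (algebraMap K (LR K) ((-P.al P.w) ^ (if P.w ∈ J then 1 else 0)) *
      algebraMap (SR K) (LR K) (∏ i ∈ J, g2 i)) else 0
  have main : ∀ lam : K, lam ≠ 0 →
      ∑ e ∈ Finset.range M, lam⁻¹ ^ e • V' e - P.gam σ lam • ccL (X2 P) ∈ Cob g2 := by
    intro lam hl
    obtain ⟨ev, hev⟩ := (ve I E G hG h p hp K P hP lam hl).1
    obtain ⟨W, hW1, hW2, hW3, hW4⟩ := vw I E G hG h p hp K P hP x₀ m s s' hrel lam hl ev hev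
    obtain ⟨hc1, hc2, -⟩ := (vnt K (I ⊕ₗ I)).2 (P.XK lam) (XK_ne hP hl)
    obtain ⟨z, hz, hx⟩ := vt.1 (SR K) (LR K) (I ⊕ₗ I) (fun κ => gS (P.XK lam κ)) _
      (fun κ => (vnt K I).1 _ (XK_ne hP hl κ)) (fun κ => Ideal.le_radical (XK_span hP lam κ)) _
      (fun J => Subring.sub_mem _ (hW1 J) (Subring.mul_mem _ (const_loc _ J _) (hc1 J)))
      (by
        have : (fun J => W J - algebraMap K (LR K) (P.gam σ lam) * ccL (P.XK lam) J) =
            W - algebraMap K (LR K) (P.gam σ lam) • ccL (P.XK lam) := rfl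
        rw [this, map_sub, map_smul, hW2, hc2, smul_zero, sub_zero]) hW4
    have hXK : (fun i => P.XK lam (e2o I i)) = fun i => c2 P lam i • X2 P i :=
      funext (XK_e2 hP lam)
    refine ⟨fun J => z (J.map (e2o I).toEmbedding), fun J => ?_, fun J _ => ?_⟩
    · apply loc_smul (c2 P lam) (c2_ne hP hl)
      obtain ⟨n, a, ha⟩ := hz (J.map (e2o I).toEmbedding)
      refine ⟨n, a, ?_⟩
      rw [← ha, Finset.prod_map]
      simp only [← XK_e2 hP lam]
      rfl
    · rw [← vt.2 (LR K) (LR K) (I ⊕ₗ I) I (e2o I) z J, ← hx _ (Finset.subset_univ _)]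
      beta_reduce
      rw [ccL_map, hXK, ccL_smul _ (c2_ne hP hl), Pi.sub_apply, Pi.smul_apply, Algebra.smul_def,
        Finset.sum_apply]
      congr 1
      have h3 := (hW3 _ _ (hu J)).trans (hV J lam hl ev hev)
      have h4 : ∏ κ ∈ J.map (e2 I), gS (P.XK lam κ) = ∏ i ∈ J, gS (c2 P lam i • X2 P i) := by
        rw [Finset.prod_map]
        simp only [← XK_e2 hP lam]
        rfl
      rw [h4, prod_gS, prod_c2] at h3
      have h5 : ∑ e ∈ Finset.range M, (lam⁻¹ ^ e • V' e) J =
          (∑ e ∈ Finset.range (N J), (algebraMap K (LR K) lam)⁻¹ ^ e * V J e) /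
            (algebraMap K (LR K) ((-P.al P.w) ^ (if P.w ∈ J then 1 else 0)) *
              algebraMap (SR K) (LR K) (∏ i ∈ J, g2 i)) := by
        have hNM : N J ≤ M := Finset.le_sup (f := N) (Finset.mem_univ J)
        rw [Finset.sum_div, ← Finset.sum_subset (Finset.range_subset_range.2 hNM)]
        · refine Finset.sum_congr rfl fun e he => ?_
          simp only [Pi.smul_apply, V', if_pos (Finset.mem_range.1 he), Algebra.smul_def, map_pow,
            map_inv₀, mul_div_assoc]
        · intro e _ he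
          simp only [Pi.smul_apply, V', if_neg (fun h => he (Finset.mem_range.2 h)), smul_zero]
      have h6 : algebraMap K (LR K) ((-P.al P.w) ^ (if P.w ∈ J then 1 else 0)) ≠ 0 :=
        (map_ne_zero (algebraMap K (LR K))).2 (pow_ne_zero _ (neg_ne_zero.2 hP.alw))
      have h7 : algebraMap K (LR K) lam ^ (if P.w ∈ J then 1 else 0) ≠ 0 :=
        pow_ne_zero _ ((map_ne_zero (algebraMap K (LR K))).2 hl)
      rw [h5, div_eq_iff (mul_ne_zero h6 (hg2 J))]
      apply mul_left_cancel₀ h7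
      rw [← h3, ← neg_mul, mul_pow, map_mul, map_pow (algebraMap K (LR K)) lam]
      change _ = _ * (W (J.map (e2 I)) * _)
      ring
  have hc : -(P.slope σ • ccL (X2 P)) ∈ Cob g2 := by
    refine const_mem (Cob g2) M V' (-(P.gam σ 0 • ccL (X2 P))) _ fun x hx => ?_
    have := (Cob g2).smul_mem x (main x⁻¹ (inv_ne_zero hx))
    rw [inv_inv, gam_eq hP, add_smul, smul_sub, smul_add, smul_smul x (x⁻¹ * _), ← mul_assoc,
      mul_inv_cancel₀ hx, one_mul] at this
    rw [smul_add, smul_neg]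
    convert this using 1
    abel
  have hc' : P.slope σ • ccL (X2 P) ∈ Cob g2 := by simpa using (Cob g2).neg_mem hc
  refine ((vnt K I).2 (X2 P) (X2_ne hP)).2.2 (span_le hP hP.spc)
    (span_le hP (Submodule.subset_span (Set.mem_insert _ _))) (span_le hP hP.spm) _ ?_
  have : (fun J => algebraMap K (LR K) (P.slope σ) * ccL (X2 P) J) = P.slope σ • ccL (X2 P) :=
    funext fun J => (Algebra.smul_def _ _).symm
  rw [this]
  exact hc'

end

end Pool.Agent.MP_ea150c_mp.H54V
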